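import Mathlib
import Pool.Agent.X41.Stern.Irred

/-!
# MP_201fbb_nt: the Stern polynomials with prime index are irreducible

Method. Let `B_n` be the Stern polynomials, `t` a complex number and `r_n = B_{n+1}(t) / B_n(t)`. Then
`r_{2n} = (1 + r_n) / t` and `1 / r_{2n+1} = (1 + 1 / r_n) / t`. If `D` is a closed disc without `-1`
which contains `t` or `1 / t` and is mapped into itself by both `r ↦ (1 + r) / t` and
`r ↦ (1 + 1 / r) / t`, then `r_n ∈ D` or `1 / r_n ∈ D` for all `n`, and no `B_n` vanishes at `t`. With 125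
explicit discs (for 125 boxes of `t`) this shows that no `B_n`, `n ≥ 1`, has a zero in the region
`|t - 2|^4 ≤ |t - 1| |t^2 - 3 t + 3|`. Hence an integral factor `g` of positive degree of `B_p` satisfies
`|g(2)|^4 > |g(1)| |g(t_0)|^2 ≥ 1`, `t_0 = (3 + √3 i) / 2`, and so `|g(2)| ≥ 2`; as `B_p(2) = p`, there is
only one such factor in a factorisation.
-/

namespace Pool.Agent.Results.MP_201fbb_nt.PrimeIndexIrreducible

open Polynomial

/-- The Stern polynomials `B_n(t)`: `B_0 = 0`, `B_1 = 1`, and for `N = n + 2 ≥ 2`, with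
`m = ⌊N / 2⌋ = ⌊n / 2⌋ + 1`: `B_N = t B_m` if `N` is even and `B_N = B_m + B_{m+1}` if `N` is odd. -/
noncomputable def stern : ℕ → ℚ[X]
  | 0 => 0
  | 1 => 1
  | n + 2 => if n % 2 = 0 then X * stern (n / 2 + 1) else stern (n / 2 + 1) + stern (n / 2 + 2)
decreasing_by all_goals omega

lemma stern_eq (n : ℕ) : stern n = (Pool.Agent.X41.Stern.B n).map (Int.castRingHom ℚ) := by
  induction n using Nat.strong_induction_on with
  | _ n ih =>
    match n with
    | 0 => rw [stern, Pool.Agent.X41.Stern.B, Polynomial.map_zero]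
    | 1 => rw [stern, Pool.Agent.X41.Stern.B, Polynomial.map_one]
    | n + 2 =>
      rw [stern, Pool.Agent.X41.Stern.B]
      split_ifs
      · rw [ih (n / 2 + 1) (by omega), Polynomial.map_mul, map_X]
      · rw [ih (n / 2 + 1) (by omega), ih (n / 2 + 2) (by omega), Polynomial.map_add]

/-- **Ulas's conjecture.** For every prime `p` the Stern polynomial `B_p(t)` is irreducible in
`ℚ[t]`. -/
theorem result (p : ℕ) (hp : p.Prime) : Irreducible (stern p) := by
  rw [stern_eq]
  have h := Pool.Agent.X41.Stern.irreducible_int p hp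
  have hne := Pool.Agent.X41.Stern.natDegree_ne p hp.two_le
  exact (IsPrimitive.Int.irreducible_iff_irreducible_map_cast (h.isPrimitive hne)).1 h

end Pool.Agent.Results.MP_201fbb_nt.PrimeIndexIrreducible
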